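import Pool.Agent.GEN.StmtsZC

/-!
# Row GDA of the squad GEN: all coefficient functions
-/

set_option autoImplicit false

namespace Pool.Agent.GEN.H24

open PowerSeries Finset Pool.Agent.Helper6_Mono Pool.Agent.Helper30_Simp
  Pool.Agent.Helper30_Simp.H32 Pool.Agent.Helper30_Simp2 Pool.Agent.Helper30_Simp2.H63

section krel

variable {σ : Type} [Fintype σ] {A : Type} [CommRing A] {M : Finset (σ →₀ ℕ)} {x : A}
  {J : Finset σ} {z1 z2 : Finset (σ →₀ ℕ) → A} {c1 c2 : A}

theorem krelJ_add (h1 : KRelJ M x J z1 c1) (h2 : KRelJ M x J z2 c2) :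
    KRelJ M x J (fun I => z1 I + z2 I) (c1 + c2) := by
  intro I K hI hK hS
  rw [← h1 I K hI hK hS, ← h2 I K hI hK hS, ← Finset.sum_add_distrib]
  refine Finset.sum_congr rfl fun K' _ => ?_
  ring

theorem krelJ_zero : KRelJ M x J (fun _ => (0 : A)) 0 := by
  intro I K hI hK hS
  refine Finset.sum_eq_zero fun K' _ => ?_
  rw [mul_zero]

theorem nrm_zero (t : A) (d : ℕ) : nrm t d 0 = 0 := by
  unfold nrm
  refine Finset.sum_eq_zero fun e _ => ?_
  rw [Polynomial.coeff_zero, Int.cast_zero, zero_mul]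

theorem nrm_one (t : A) : nrm t 0 1 = 1 := by
  unfold nrm
  rw [Finset.sum_range_one, Polynomial.coeff_one_zero, Int.cast_one, Nat.sub_self, pow_zero,
    mul_one]

end krel

open scoped Classical in
/-- row GDA -/
theorem gda (h1 : RecStmt) (h2 : UnrStmt) (h3 : TrfStmt) (h4 : SeqStmt) : GdaStmt := by
  intro σ _ M hM B hB1 hB hB0 R _ L J hJ P hP τ W1 W0 hW1 hW0
  obtain ⟨-, hrec⟩ := h1 σ M J
  obtain ⟨hdeg, he1, he0⟩ := hrec P hP
  obtain ⟨q, hq⟩ : ∃ q : ℤ⟦X⟧, (1 - X) * q = 1 := by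
    have h2 : IsUnit (1 - X : ℤ⟦X⟧) := by
      rw [PowerSeries.isUnit_iff_constantCoeff]
      simp
    obtain ⟨u, hu⟩ := h2
    refine ⟨(u⁻¹ : ℤ⟦X⟧ˣ), ?_⟩
    rw [← hu, Units.mul_inv]
  have hd : ∀ I, dd I J ≤ nJ J := fun I => by
    have := card_free I J
    omega
  have hdd : dd (∅ : Finset (σ →₀ ℕ)) J = 0 := by
    unfold dd
    simp
  have hrel := h2 σ M J hJ P hP q hq
  -- the product identities
  have hpr : ∀ (l : Option (Finset (σ →₀ ℕ))) (I : Finset (σ →₀ ℕ)), I ⊆ M → I.Nonempty → ∀ m,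
      (ZX (nJ J) (P I l) : ℤ⟦X⟧) * cs X M I J m m
        = (1 - X) ^ nJ J * nrm (X * q) (dd I J) (P I l) * gfc M I J m := fun l I hI hI' m =>
    (h3 σ M J (P I l)).1 q hq I hI' (hdeg I hI l) m
  -- the values
  have hev : ∀ (l : Option (Finset (σ →₀ ℕ))) (I : Finset (σ →₀ ℕ)), I ⊆ M →
      (L : R) ^ nJ J * evL L (ZX (nJ J) (P I l)) = evI ((L : R) - 1) (P I l) := fun l I hI =>
    (h3 σ M J (P I l)).2 R L ((hdeg I hI l).trans (hd I))
  have hn0 : ∀ l, l ≠ some ∅ → nrm (X * q) (dd ∅ J) (P ∅ l) = (0 : ℤ⟦X⟧) := by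
    intro l hl
    rw [he0 l hl, nrm_zero]
  have hn1 : nrm (X * q) (dd ∅ J) (P ∅ (some ∅)) = (1 : ℤ⟦X⟧) := by
    rw [he1, hdd, nrm_one]
  have hrN : KRelJ M (X : ℤ⟦X⟧) J (fun I => nrm (X * q) (dd I J) (P I none)) X := by
    have := hrel none
    rwa [if_pos rfl] at this
  have hrS : ∀ I₁, KRelJ M (X : ℤ⟦X⟧) J (fun I => nrm (X * q) (dd I J) (P I (some I₁))) 0 := by
    intro I₁
    have := hrel (some I₁)
    rwa [if_neg (Option.some_ne_none I₁)] at this
  -- the family of the torus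
  have gT : Good L M B J
      (fun I => evI ((L : R) - 1) (P I none))
      (fun I => evI ((L : R) - 1) (P I none) + evI ((L : R) - 1) (P I (some ∅))) := by
    have h5 := h4 σ M hM B hB1 hB hB0 R L J 1
      (fun I => nrm (X * q) (dd I J) (P I none))
      (fun I => nrm (X * q) (dd I J) (P I none) + nrm (X * q) (dd I J) (P I (some ∅)))
      (hn0 none (Option.some_ne_none ∅).symm)
      (by
        show nrm (X * q) (dd ∅ J) (P ∅ none) + nrm (X * q) (dd ∅ J) (P ∅ (some ∅)) = (1 : ℤ⟦X⟧)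
        rw [hn0 none (Option.some_ne_none ∅).symm, hn1, zero_add])
      (by
        rw [mul_one]
        exact hrN)
      (by
        have h6 := krelJ_add hrN (hrS ∅)
        rw [add_zero] at h6
        rw [mul_one]
        exact h6)
      ((1 - X) ^ nJ J) (fun I => ZX (nJ J) (P I none))
      (fun I => ZX (nJ J) (P I none) + ZX (nJ J) (P I (some ∅)))
      (fun I hI hI' m => hpr none I hI hI' m)
      (fun I hI hI' m => by
        rw [Polynomial.coe_add, add_mul, hpr none I hI hI' m, hpr (some ∅) I hI hI' m]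
        ring)
    refine (h5.smul ((L : R) ^ nJ J)).congr (fun I hI => ?_) (fun I hI => ?_)
    · exact hev none I (Finset.mem_powerset.1 hI)
    · rw [map_add, mul_add, hev none I (Finset.mem_powerset.1 hI),
        hev (some ∅) I (Finset.mem_powerset.1 hI)]
  -- the families of the irreducible sets
  have g1 : ∀ I₁ : Finset (σ →₀ ℕ), I₁ ≠ ∅ → Good L M B J
      (fun I => evI ((L : R) - 1) (P I (some I₁))) (fun _ => 0) := by
    intro I₁ hI₁
    have hne : some I₁ ≠ some ∅ := fun h => hI₁ (Option.some_injective _ h)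
    have h5 := h4 σ M hM B hB1 hB hB0 R L J 0
      (fun I => nrm (X * q) (dd I J) (P I (some I₁))) (fun _ => 0)
      (hn0 _ hne) rfl
      (by
        rw [mul_zero]
        exact hrS I₁)
      (by
        rw [mul_zero]
        exact krelJ_zero)
      ((1 - X) ^ nJ J) (fun I => ZX (nJ J) (P I (some I₁))) (fun _ => 0)
      (fun I hI hI' m => hpr (some I₁) I hI hI' m)
      (fun I hI hI' m => by
        rw [Polynomial.coe_zero, zero_mul, mul_zero, zero_mul])
    refine (h5.smul ((L : R) ^ nJ J)).congr (fun I hI => ?_) (fun I hI => ?_)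
    · exact hev (some I₁) I (Finset.mem_powerset.1 hI)
    · rw [map_zero, mul_zero]
  have g0 : ∀ I₁ : Finset (σ →₀ ℕ), I₁ ≠ ∅ → Good L M B J
      (fun _ => 0) (fun I => evI ((L : R) - 1) (P I (some I₁))) := by
    intro I₁ hI₁
    have hne : some I₁ ≠ some ∅ := fun h => hI₁ (Option.some_injective _ h)
    have h5 := h4 σ M hM B hB1 hB hB0 R L J 0
      (fun _ => 0) (fun I => nrm (X * q) (dd I J) (P I (some I₁)))
      rfl (hn0 _ hne)
      (by
        rw [mul_zero]
        exact krelJ_zero)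
      (by
        rw [mul_zero]
        exact hrS I₁)
      ((1 - X) ^ nJ J) (fun _ => 0) (fun I => ZX (nJ J) (P I (some I₁)))
      (fun I hI hI' m => by
        rw [Polynomial.coe_zero, zero_mul, mul_zero, zero_mul])
      (fun I hI hI' m => hpr (some I₁) I hI hI' m)
    refine (h5.smul ((L : R) ^ nJ J)).congr (fun I hI => ?_) (fun I hI => ?_)
    · rw [map_zero, mul_zero]
    · exact hev (some I₁) I (Finset.mem_powerset.1 hI)
  -- the sum
  have hsum := (gT.smul τ).add (Good.sum (M.powerset.erase ∅) (fun I₁ hI₁ =>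
    ((g1 I₁ (Finset.ne_of_mem_erase hI₁)).smul (W1 I₁)).add
      ((g0 I₁ (Finset.ne_of_mem_erase hI₁)).smul (W0 I₁))))
  have he : ∅ ∈ M.powerset := Finset.empty_mem_powerset M
  refine hsum.congr (fun I hI => ?_) (fun I hI => ?_)
  · rw [← Finset.add_sum_erase _ _ he, hW1, mul_zero, zero_add, mul_comm τ]
    congr 1
    refine Finset.sum_congr rfl fun I₁ _ => ?_
    ring
  · rw [← Finset.add_sum_erase _ _ he, hW0]
    have h6 : ∑ I₁ ∈ M.powerset.erase ∅, (W1 I₁ * 0 + W0 I₁ * evI ((L : R) - 1) (P I (some I₁)))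
        = ∑ I₁ ∈ M.powerset.erase ∅, evI ((L : R) - 1) (P I (some I₁)) * W0 I₁ := by
      refine Finset.sum_congr rfl fun I₁ _ => ?_
      ring
    rw [h6]
    ring

end Pool.Agent.GEN.H24
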