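import Pool.Agent.GEN.StmtsV

/-!
# Row RVL of the squad GEN: relations which hold for all large exponents
-/

set_option autoImplicit false

namespace Pool.Agent.GEN.H24

open MvPolynomial Finset Pool.Agent.Helper6_Mono Pool.Agent.Helper30_Simp
  Pool.Agent.Helper30_Simp2

theorem fgen_ne_zero {σ : Type} {M : Finset (σ →₀ ℕ)} (hM : M.Nonempty) : fgen M ≠ 0 := by
  classical
  obtain ⟨α, hα⟩ := hM
  intro h0
  have h1 := congrArg (coeff α) h0
  unfold fgen at h1
  rw [coeff_sum, Finset.sum_eq_single (⟨α, hα⟩ : M)] at h1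
  · rw [coeff_monomial, if_pos rfl, coeff_zero] at h1
    exact X_ne_zero _ h1
  · intro β _ hβ
    rw [coeff_monomial, if_neg]
    intro h2
    exact hβ (Subtype.ext h2)
  · intro h2
    exact absurd (Finset.mem_univ _) h2

/-- row RVL -/
theorem rvl (hRov : RovStmt) (hXtv : XtvStmt) : RvlStmt := by
  intro σ _ M κ N B hN hge hBM hB hBN hind hflat hUB s₀ hs₀ a P Q hrel
  exact hRov σ M κ N B hN hge hBM hB hBN hind hflat hUB s₀ hs₀ a P Q
    (hXtv σ (MvPolynomial M ℚ) (fgen M) (fgen_ne_zero (hB.mono hBM)) a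
      (algebraMap ℚ (MvPolynomial M ℚ) s₀) P Q hrel)

end Pool.Agent.GEN.H24
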